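import Mathlib
import Pool.Agent.IAQ.KTor
import Pool.Agent.IAQ.KThree
import Pool.Agent.IAQ.MagFin
import Pool.Agent.IAQ.MagNorm
import Pool.Agent.IAQ.Asm
import Pool.Agent.IAQ.Inf

set_option autoImplicit false

namespace Pool.Agent.Results.MP_45114e_al.ContainsTorelli

theorem result (n m : ℕ) (hn : 5 ≤ n) (hm : m + 2 ≤ n)
    (H : Subgroup (MulAut (FreeGroup (Fin n)))) (hH : H.FiniteIndex)
    (hIA : ∀ φ : MulAut (FreeGroup (Fin n)),
      (∀ g, Abelianization.of (φ g) = Abelianization.of g) → φ ∈ H)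
    (ρ : H →* Matrix.GeneralLinearGroup (Fin m) ℤ) :
    Finite ρ.range ∧ (2 ≤ m → ¬ ρ.range.FiniteIndex) := by
  have hIA' : IAQ.IA (FreeGroup (Fin n)) ≤ H := fun φ hφ => hIA φ hφ
  obtain ⟨N, hN, h4, h5, h6⟩ := IAQ.K4 H ρ hIA' hH hn hm
  have h1 := IAQ.K1 H ρ hIA' hH hn hm
  have h2 := IAQ.K2 H ρ hIA' hH hn hm
  have h3 := IAQ.K3 (by omega) (IAQ.kap H ρ) h2
  have hQ := IAQ.magnus_finite hn (IAQ.kap H ρ) h1 h2 h3 hN h4 h5
  have hK := IAQ.kap_finite (by omega) (IAQ.kap H ρ) (fun d e h => IAQ.magnus_norm d e h) hQ hN h6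
  have hfin : Finite ρ.range := by
    have hle : (IAQ.kap H ρ).subgroupOf H ≤ ρ.ker := by
      intro g hg
      rw [Subgroup.mem_subgroupOf, IAQ.mem_kap] at hg
      have h7 := hg 1
      rw [one_mul, inv_one, mul_one, IAQ.mem_KerH] at h7
      exact h7.2
    have h8 : ((IAQ.kap H ρ).subgroupOf H).FiniteIndex := by infer_instance
    have h9 : ρ.ker.FiniteIndex := Subgroup.finiteIndex_of_le hle
    have h10 : Finite (H ⧸ ρ.ker) := Subgroup.finite_quotient_of_finiteIndex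
    exact Finite.of_equiv _ (QuotientGroup.quotientKerEquivRange ρ).toEquiv
  exact ⟨hfin, fun h => IAQ.not_finiteIndex h _ hfin⟩

end Pool.Agent.Results.MP_45114e_al.ContainsTorelli
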