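import Mathlib
import Pool.Agent.RED6.Final7
import Pool.Agent.RED.GamIdx
import Pool.Agent.IAQ.Inf

set_option autoImplicit false

namespace Pool.Agent.Results.MP_45114e_al.QuotientStabilizers

theorem result (n m r s d l t : ℕ) (hn : r + 5 ≤ n) (hl : r + 3 * l + 2 ≤ n)
    (hn2 : 4 * s + 2 * d + 5 ≤ n) (hm : m + 2 ≤ n)
    (G : Type*) [Group G] [Finite G]
    (hr : ∃ S : Finset G, S.card ≤ r ∧ Subgroup.closure (S : Set G) = ⊤)
    (N : ℕ → Subgroup G) [∀ i, (N i).Normal] (h0 : N 0 = ⊥) (hN : ∀ i < t, N i ≤ N (i + 1))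
    (hlayer : ∀ i < t, ⁅N (i + 1), N (i + 1)⁆ ≤ N i ∨
      ∀ S : Finset G, (∀ x ∈ S, x ∈ N (i + 1)) →
        ∃ M : Finset G, M ⊆ S ∧ M.card ≤ l ∧ ∀ x ∈ S, x ∈ Subgroup.closure (M : Set G) ⊔ N i)
    (hs : ∃ S : Finset (G ⧸ N t), S.card ≤ s ∧ Subgroup.closure (S : Set (G ⧸ N t)) = ⊤)
    (hd : ∀ S : Finset (G ⧸ N t), Subgroup.closure (S : Set (G ⧸ N t)) = ⊤ →
      ∃ M : Finset (G ⧸ N t), M ⊆ S ∧ M.card ≤ d ∧ Subgroup.closure (M : Set (G ⧸ N t)) = ⊤)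
    (π : FreeGroup (Fin n) →* G) (hsur : Function.Surjective π)
    (H : Subgroup (MulAut (FreeGroup (Fin n))))
    (hπ : ∀ φ : MulAut (FreeGroup (Fin n)), (∀ w, π (φ w) = π w) → φ ∈ H)
    (ρ : H →* Matrix.GeneralLinearGroup (Fin m) ℤ) :
    H.FiniteIndex ∧ Finite ρ.range ∧ (2 ≤ m → ¬ ρ.range.FiniteIndex) := by
  have hev : RED.ev (fun x => π (FreeGroup.of x)) = π := by
    ext x
    rw [RED.ev_of]
  have hΓ : RED.Gam (fun x => π (FreeGroup.of x)) ≤ H := by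
    intro φ hφ
    refine hπ φ fun w => ?_
    have h := hφ w
    rwa [hev] at h
  have hf0 : (RED.Gam (fun x => π (FreeGroup.of x))).FiniteIndex := RED.Gam_finiteIndex _
  have hf : H.FiniteIndex := Subgroup.finiteIndex_of_le hΓ
  have hfin : Finite ρ.range :=
    RED.final_chain7' N h0 hN hlayer hr hs hd _ (by rw [hev]; exact hsur) H ρ hn hl hn2 hf hm hΓ
  exact ⟨hf, hfin, fun h => IAQ.not_finiteIndex h _ hfin⟩

end Pool.Agent.Results.MP_45114e_al.QuotientStabilizers
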