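import Mathlib
import Pool.Agent.AFn.Final5

set_option autoImplicit false

namespace Pool.Agent.Results.MP_45114e_al.TransvectionPowers

theorem result (n m : ℕ) (H : Subgroup (MulAut (FreeGroup (Fin n)))) (hH : H.FiniteIndex)
    (ρ : H →* Matrix.GeneralLinearGroup (Fin m) ℤ) :
    ∃ K : Subgroup (FreeGroup (Fin n)), K.FiniteIndex ∧ K.Characteristic ∧
      ∀ (B : FreeGroupBasis (Fin n) (FreeGroup (Fin n))) (W : Finset (Fin n)),
        (W.card + m + 1 ≤ n ∨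
          (W.card + 4 ≤ n ∧ m + 2 ≤ n ∧ m ≤ 2 ^ (n - 2 - W.card) + 1)) →
        ∀ g ∈ K, g ∈ Subgroup.closure (B '' (W : Set (Fin n))) →
        ∀ l k : Fin n → FreeGroup (Fin n),
          (∀ c ∉ W, l c ∈ K ∧ l c ∈ Subgroup.closure (B '' (W : Set (Fin n))) ∧
            k c ∈ K ∧ k c ∈ Subgroup.closure (B '' (W : Set (Fin n)))) →
        ∀ T : MulAut (FreeGroup (Fin n)), (∀ c ∈ W, T (B c) = g * B c * g⁻¹) →
          (∀ c ∉ W, T (B c) = l c * B c * k c) →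
          ∃ hT : T ∈ H, ρ ⟨T, hT⟩ = 1 := by
  classical
  obtain ⟨K, hKf, hKc, hK⟩ := AFn.final_core5 n m H hH ρ
  refine ⟨K, hKf, ?_, ?_⟩
  · rw [Subgroup.characteristic_iff_map_le]
    intro φ
    rintro x ⟨y, hy, rfl⟩
    exact hKc φ y hy
  intro B W hcond g hgK hg l k hlk T hTW hTc
  obtain ⟨β, hβ⟩ : ∃ β : MulAut (FreeGroup (Fin n)), β = B.repr.symm := ⟨_, rfl⟩
  have hβof : ∀ i, β (FreeGroup.of i) = B i := by
    intro i
    rw [hβ]
    rfl
  have hββ : ∀ x, β (β⁻¹ x) = x := by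
    intro x
    rw [← MulAut.mul_apply, mul_inv_cancel]
    rfl
  have hβi : ∀ i, β⁻¹ (B i) = FreeGroup.of i := by
    intro i
    rw [← hβof i, ← MulAut.mul_apply, inv_mul_cancel]
    rfl
  have hmem : ∀ w ∈ Subgroup.closure (B '' (W : Set (Fin n))), β⁻¹ w ∈ AFn.fsub W := by
    intro w hw
    have h3 : Subgroup.closure (B '' (W : Set (Fin n))) ≤
        (AFn.fsub W).comap (β⁻¹ : MulAut (FreeGroup (Fin n))).toMonoidHom := by
      rw [Subgroup.closure_le]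
      rintro x ⟨i, hi, rfl⟩
      show β⁻¹ (B i) ∈ AFn.fsub W
      rw [hβi]
      exact AFn.of_mem_fsub hi
    exact h3 hw
  have h1 := hK β W hcond (β⁻¹ g) (hKc _ g hgK) (hmem g hg) (fun c => β⁻¹ (l c))
    (fun c => β⁻¹ (k c))
    (by
      intro c hc
      obtain ⟨h1, h2, h3, h4⟩ := hlk c hc
      exact ⟨hKc _ _ h1, hmem _ h2, hKc _ _ h3, hmem _ h4⟩)
    (β⁻¹ * T * β)
    (by
      intro c hc
      rw [MulAut.mul_apply, MulAut.mul_apply, hβof, hTW c hc, map_mul, map_mul, map_inv, hβi])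
    (by
      intro c hc
      rw [MulAut.mul_apply, MulAut.mul_apply, hβof, hTc c hc, map_mul, map_mul, hβi])
  have hTe : β * (β⁻¹ * T * β) * β⁻¹ = T := by group
  obtain ⟨hh, hh2⟩ := h1
  have hT : T ∈ H := by rw [← hTe]; exact hh
  refine ⟨hT, ?_⟩
  have h2 : (⟨T, hT⟩ : H) = ⟨β * (β⁻¹ * T * β) * β⁻¹, hh⟩ := Subtype.ext hTe.symm
  rw [h2]
  exact hh2

end Pool.Agent.Results.MP_45114e_al.TransvectionPowers
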